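import Pool.Agent.Work.MP_1ce82a_an.U.Final
import Pool.Agent.Work.MP_1ce82a_an.R.Ex

/-! The closed surfaces covered by the plane on which, for every Tonelli Lagrangian (of class `C^3`
if the surface is not orientable) and a residual set of potentials, almost every cohomology class
has an Aubry set which is one hyperbolic periodic orbit or one hyperbolic fixed point, are exactly
those which are not diffeomorphic to the torus. -/

namespace Pool.Agent.Results.MP_1ce82a_an.Classification

open Pool.Agent.Work.MP_1ce82a_an (E addPot)
open Pool.Agent.Work.MP_1ce82a_an.S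

theorem result (G : Type) [Group G] [MulAction G E] (hS : Surf G) :
    (∀ L : E × E → ℝ, Tonelli G L → (Orient G ∨ ContDiff ℝ 3 L) →
      ∀ᶠ f in residual (Cinf G), Full {c : G → ℝ | c ∈ Uset (addPot L f.1)}) ↔ ¬ IsTorus G :=
  Pool.Agent.Work.MP_1ce82a_an.U.classif_iff hS

/-- The torus case is not empty, so `result` contains the negated form of the question. -/
theorem negated : ∃ (G : Type) (_ : Group G) (_ : MulAction G E), Surf G ∧
    ∃ L : E × E → ℝ, Tonelli G L ∧
      ¬ ∀ᶠ f in residual (Cinf G), Full {c : G → ℝ | c ∈ Uset (addPot L f.1)} := by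
  obtain ⟨G, _, _, hS, hT⟩ := torus_exists
  refine ⟨G, _, _, hS, ?_⟩
  by_contra h
  exact (result G hS).1 (fun L hL _ => not_not.1 fun hn => h ⟨L, hL, hn⟩) hT

end Pool.Agent.Results.MP_1ce82a_an.Classification
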